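import Pool.Agent.L7h33.DQ.Stm

/-!
# Project DQ: the product formula for cyclotomic polynomials (S_CYC)
-/

set_option autoImplicit false

open Polynomial

namespace Pool.Agent.L7h97.DQ

open Pool.Agent.L7h33.DQ Pool.Agent.K7.H54.DP

theorem card_sqf (q : ℕ) (hq : q ≠ 0) :
    (q.divisors.filter Squarefree).card = 2 ^ q.primeFactors.card := by
  have h := Nat.sum_divisors_filter_squarefree hq (f := fun _ => (1 : ℕ))
  rw [Finset.sum_const, Finset.sum_const, smul_eq_mul, smul_eq_mul, mul_one, mul_one,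
    Finset.card_powerset, Nat.factors_eq] at h
  exact h

theorem s_CYC : S_CYC := by
  intro q x c hq hc hc1 hd
  have hq' : (1 : ℝ) ≤ q := by exact_mod_cast hq
  have hq0 : q ≠ 0 := by omega
  have hevc : ∀ n, ev (cyclotomic n ℤ) x = (cyclotomic n ℂ).eval x := by
    intro n
    unfold ev
    rw [map_cyclotomic]
  have hne : ∀ n, n ∣ q → x ^ n - 1 ≠ 0 := by
    intro n hn h
    have h1 := (hd n (Nat.mem_divisors.2 ⟨hn, hq0⟩)).1
    rw [h, norm_zero] at h1
    have hn' : (0 : ℝ) < n := by exact_mod_cast Nat.pos_of_dvd_of_pos hn hq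
    have : 0 < c / (n : ℝ) ^ 2 := by positivity
    linarith
  set L : ℝ := Real.log (3 * (q : ℝ) ^ 2 / c) with hL
  have hLbd : ∀ n, n ∣ q → |Real.log ‖x ^ n - 1‖| ≤ L := by
    intro n hn
    obtain ⟨h1, h2⟩ := hd n (Nat.mem_divisors.2 ⟨hn, hq0⟩)
    have hn' : (0 : ℝ) < n := by exact_mod_cast Nat.pos_of_dvd_of_pos hn hq
    have hnq : (n : ℝ) ≤ q := by exact_mod_cast Nat.le_of_dvd hq hn
    have h0 : 0 < ‖x ^ n - 1‖ := norm_pos_iff.2 (hne n hn)
    rw [abs_le]
    constructor
    · rw [hL, ← Real.log_inv, inv_div]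
      apply Real.log_le_log (by positivity)
      refine le_trans ?_ h1
      apply div_le_div_of_nonneg_left hc.le (by positivity)
      nlinarith
    · rw [hL]
      apply Real.log_le_log h0
      refine h2.trans ?_
      rw [le_div_iff₀ hc]
      nlinarith
  have hinv := (ArithmeticFunction.sum_eq_iff_sum_smul_moebius_eq_on
    (f := fun n => Real.log ‖(cyclotomic n ℂ).eval x‖) (g := fun n => Real.log ‖x ^ n - 1‖)
    {n | n ∣ q} (fun m n hmn hn => dvd_trans hmn hn)).1 (by
      intro n hn hnq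
      have hnq' : n ∣ q := hnq
      have h1 : ∏ i ∈ n.divisors, (cyclotomic i ℂ).eval x = x ^ n - 1 := by
        rw [← eval_prod, prod_cyclotomic_eq_X_pow_sub_one hn]
        simp
      have h2 : ∀ i ∈ n.divisors, (cyclotomic i ℂ).eval x ≠ 0 := by
        have h3 := hne n hnq'
        rw [← h1, Finset.prod_ne_zero_iff] at h3
        exact h3
      rw [← h1, norm_prod, Real.log_prod]
      intro i hi
      exact norm_ne_zero_iff.2 (h2 i hi)) q hq (dvd_refl q)
  have hpos : 0 < ‖ev (cyclotomic q ℤ) x‖ := by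
    rw [hevc, norm_pos_iff]
    intro h
    apply hne q (dvd_refl q)
    have h1 : ∏ i ∈ q.divisors, (cyclotomic i ℂ).eval x = x ^ q - 1 := by
      rw [← eval_prod, prod_cyclotomic_eq_X_pow_sub_one hq]
      simp
    rw [← h1]
    exact Finset.prod_eq_zero (Nat.mem_divisors_self q hq0) h
  have hlow : -(2 ^ q.primeFactors.card * L) ≤ Real.log ‖ev (cyclotomic q ℤ) x‖ := by
    rw [hevc, ← hinv]
    have h1 : ∀ p ∈ q.divisorsAntidiagonal,
        -(|(ArithmeticFunction.moebius p.1 : ℤ)| * L) ≤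
          ArithmeticFunction.moebius p.1 • Real.log ‖x ^ p.2 - 1‖ := by
      intro p hp
      rw [Nat.mem_divisorsAntidiagonal] at hp
      have h2 : p.2 ∣ q := ⟨p.1, by rw [mul_comm]; exact hp.1.symm⟩
      have h3 := hLbd p.2 h2
      rw [zsmul_eq_mul]
      have h4 : |(ArithmeticFunction.moebius p.1 : ℝ) * Real.log ‖x ^ p.2 - 1‖| ≤
          |(ArithmeticFunction.moebius p.1 : ℝ)| * L := by
        rw [abs_mul]
        exact mul_le_mul_of_nonneg_left h3 (abs_nonneg _)
      rw [Int.cast_abs]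
      exact (abs_le.1 h4).1
    refine le_trans ?_ (Finset.sum_le_sum h1)
    rw [Finset.sum_neg_distrib, neg_le_neg_iff, ← Finset.sum_mul]
    have hL0 : 0 ≤ L := (abs_nonneg _).trans (hLbd q (dvd_refl q))
    refine mul_le_mul_of_nonneg_right ?_ hL0
    have h2 : ∑ p ∈ q.divisorsAntidiagonal,
        ((|(ArithmeticFunction.moebius p.1 : ℤ)| : ℤ) : ℝ) =
        ∑ d ∈ q.divisors, ((|(ArithmeticFunction.moebius d : ℤ)| : ℤ) : ℝ) :=
      Nat.sum_divisorsAntidiagonal (f := fun d _ =>
        ((|(ArithmeticFunction.moebius d : ℤ)| : ℤ) : ℝ))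
    rw [h2]
    have h3 : ∑ d ∈ q.divisors, ((|(ArithmeticFunction.moebius d : ℤ)| : ℤ) : ℝ) =
        ∑ d ∈ q.divisors.filter Squarefree, (1 : ℝ) := by
      rw [Finset.sum_filter]
      refine Finset.sum_congr rfl fun d _ => ?_
      rw [ArithmeticFunction.abs_moebius]
      split_ifs <;> simp
    rw [h3, Finset.sum_const, card_sqf q hq0, nsmul_eq_mul, mul_one]
    push_cast
    exact le_rfl
  have hfin : Real.log ((c / (3 * (q : ℝ) ^ 2)) ^ (2 ^ q.primeFactors.card)) =
      -(2 ^ q.primeFactors.card * L) := by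
    rw [Real.log_pow, ← inv_div, Real.log_inv]
    push_cast
    ring
  rw [← Real.log_le_log_iff (by positivity) hpos, hfin]
  exact hlow

end Pool.Agent.L7h97.DQ
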