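import Pool.Agent.L7h33.DQ.Stm

/-!
# Project DQ: the totient and the number of prime factors (S_TOT)
-/

set_option autoImplicit false

namespace Pool.Agent.L7h97.DQ

open Pool.Agent.L7h33.DQ Pool.Agent.K7.H54.DP

theorem tot_sq (n : ℕ) : (1 ≤ n → n ≤ 2 * n.totient ^ 2) ∧ (Odd n → n ≤ n.totient ^ 2) := by
  induction n using Nat.recOnPosPrimePosCoprime with
  | prime_pow p k hp hk =>
    rw [Nat.totient_prime_pow hp hk]
    obtain ⟨k, rfl⟩ : ∃ j, k = j + 1 := ⟨k - 1, by omega⟩
    rw [Nat.add_sub_cancel]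
    have hpow : 1 ≤ p ^ k := Nat.one_le_pow _ _ hp.pos
    constructor
    · intro _
      have h1 : p ≤ 2 * (p - 1) ^ 2 := by
        obtain ⟨r, rfl⟩ : ∃ r, p = r + 2 := ⟨p - 2, by have := hp.two_le; omega⟩
        rw [show r + 2 - 1 = r + 1 by omega]
        nlinarith
      calc p ^ (k + 1) = p ^ k * p := pow_succ _ _
        _ ≤ (p ^ k) ^ 2 * (2 * (p - 1) ^ 2) := Nat.mul_le_mul (by nlinarith) h1
        _ = 2 * (p ^ k * (p - 1)) ^ 2 := by ring
    · intro hodd
      have hp2 : p ≠ 2 := by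
        rintro rfl
        rw [Nat.odd_iff, pow_succ] at hodd
        omega
      have h1 : p ≤ (p - 1) ^ 2 := by
        obtain ⟨r, rfl⟩ : ∃ r, p = r + 3 := ⟨p - 3, by have := hp.two_le; omega⟩
        rw [show r + 3 - 1 = r + 2 by omega]
        nlinarith
      calc p ^ (k + 1) = p ^ k * p := pow_succ _ _
        _ ≤ (p ^ k) ^ 2 * (p - 1) ^ 2 := Nat.mul_le_mul (by nlinarith) h1
        _ = (p ^ k * (p - 1)) ^ 2 := by ring
  | zero => exact ⟨fun h => absurd h (by omega), fun h => absurd h (by decide)⟩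
  | one => simp
  | coprime a b ha hb hab iha ihb =>
    rw [Nat.totient_mul hab]
    constructor
    · intro _
      rcases Nat.even_or_odd a with h | h
      · have hb' : Odd b := by
          rw [← Nat.not_even_iff_odd]
          intro h2
          have h3 := Nat.dvd_gcd h.two_dvd h2.two_dvd
          rw [hab.gcd_eq_one] at h3
          omega
        calc a * b ≤ (2 * a.totient ^ 2) * b.totient ^ 2 :=
              Nat.mul_le_mul (iha.1 (by omega)) (ihb.2 hb')
          _ = 2 * (a.totient * b.totient) ^ 2 := by ring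
      · calc a * b ≤ a.totient ^ 2 * (2 * b.totient ^ 2) :=
              Nat.mul_le_mul (iha.2 h) (ihb.1 (by omega))
          _ = 2 * (a.totient * b.totient) ^ 2 := by ring
    · intro h
      rw [Nat.odd_mul] at h
      calc a * b ≤ a.totient ^ 2 * b.totient ^ 2 := Nat.mul_le_mul (iha.2 h.1) (ihb.2 h.2)
        _ = (a.totient * b.totient) ^ 2 := by ring

theorem omega_bd (q : ℕ) (hq : 1 ≤ q) : 16 ^ q.primeFactors.card ≤ 16 ^ 16 * q := by
  classical
  have h1 : ∏ _p ∈ q.primeFactors, 16 = 16 ^ q.primeFactors.card := by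
    rw [Finset.prod_const]
  rw [← h1, ← Finset.prod_filter_mul_prod_filter_not q.primeFactors (· < 16)]
  refine Nat.mul_le_mul ?_ ?_
  · rw [Finset.prod_const]
    apply Nat.pow_le_pow_right (by norm_num)
    have h2 : q.primeFactors.filter (· < 16) ⊆ Finset.range 16 := by
      intro x hx
      rw [Finset.mem_filter] at hx
      rw [Finset.mem_range]
      exact hx.2
    have := Finset.card_le_card h2
    rwa [Finset.card_range] at this
  · calc ∏ _p ∈ q.primeFactors.filter (fun p => ¬ p < 16), 16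
        ≤ ∏ p ∈ q.primeFactors.filter (fun p => ¬ p < 16), p := by
          refine Finset.prod_le_prod' fun p hp => ?_
          rw [Finset.mem_filter] at hp
          omega
      _ ≤ ∏ p ∈ q.primeFactors, p :=
          Finset.prod_le_prod_of_subset_of_one_le' (Finset.filter_subset _ _)
            fun p hp _ => (Nat.prime_of_mem_primeFactors hp).one_le
      _ ≤ q := Nat.le_of_dvd hq (Nat.prod_primeFactors_dvd q)

theorem s_TOT : S_TOT := by
  refine ⟨fun q hq => (tot_sq q).1 hq, fun c hc => ?_⟩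
  set ε : ℝ := 1 / (2 ^ 16 * 48) with hε
  have hε0 : 0 < ε := by rw [hε]; positivity
  have h1 : ∀ᶠ x : ℝ in Filter.atTop, Real.log (c * x ^ 2) ≤ ε * x ^ (1 / 4 : ℝ) := by
    have h2 := (isLittleO_log_rpow_atTop (r := 1 / 4) (by norm_num)).bound
      (c := ε / 4) (by positivity)
    have h3 : Filter.Tendsto (fun x : ℝ => x ^ (1 / 4 : ℝ)) Filter.atTop Filter.atTop :=
      tendsto_rpow_atTop (by norm_num)
    have h4 := h3.eventually_ge_atTop (2 * |Real.log c| / ε)
    filter_upwards [h2, h4, Filter.eventually_ge_atTop (1 : ℝ)] with x hx2 hx4 hx1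
    have hx0 : 0 < x := by linarith
    rw [Real.log_mul hc.ne' (by positivity), Real.log_pow]
    rw [Real.norm_eq_abs, Real.norm_eq_abs, abs_of_nonneg (Real.rpow_nonneg hx0.le _)] at hx2
    have h5 := le_abs_self (Real.log x)
    have h6 := le_abs_self (Real.log c)
    rw [div_le_iff₀ hε0] at hx4
    push_cast
    nlinarith
  obtain ⟨x₀, hx₀⟩ := Filter.eventually_atTop.1 h1
  refine ⟨max 1 ⌈x₀⌉₊, fun q hq => ?_⟩
  have hq1 : 1 ≤ q := (le_max_left _ _).trans hq
  have hqx : x₀ ≤ q := (Nat.le_ceil _).trans (by exact_mod_cast (le_max_right _ _).trans hq)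
  have hq0 : (0 : ℝ) < q := by exact_mod_cast hq1
  set s : ℝ := (q : ℝ) ^ (1 / 4 : ℝ) with hs
  have hs0 : 0 < s := Real.rpow_pos_of_pos hq0 _
  have hs4 : s ^ 4 = q := by
    rw [hs, ← Real.rpow_natCast, ← Real.rpow_mul hq0.le]
    norm_num
  have hlog := hx₀ q hqx
  rw [← hs] at hlog
  have hω : (2 : ℝ) ^ q.primeFactors.card ≤ 2 ^ 16 * s := by
    have h2 := omega_bd q hq1
    have h3 : ((2 : ℝ) ^ q.primeFactors.card) ^ 4 ≤ (2 ^ 16 * s) ^ 4 := by
      have h4 : ((2 : ℝ) ^ q.primeFactors.card) ^ 4 = 16 ^ q.primeFactors.card := by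
        rw [← pow_mul, mul_comm, pow_mul]
        norm_num
      rw [h4, mul_pow, hs4]
      have h5 : ((16 : ℝ)) ^ q.primeFactors.card ≤ 16 ^ 16 * q := by exact_mod_cast h2
      calc ((16 : ℝ)) ^ q.primeFactors.card ≤ 16 ^ 16 * q := h5
        _ = (2 ^ 16) ^ 4 * q := by norm_num
    exact le_of_pow_le_pow_left₀ (by norm_num) (by positivity) h3
  have hφ : s ^ 2 ≤ 2 * q.totient := by
    have h2 := (tot_sq q).1 hq1
    have h3 : (q : ℝ) ≤ 2 * (q.totient : ℝ) ^ 2 := by exact_mod_cast h2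
    rw [← hs4] at h3
    have h4 : (s ^ 2) ^ 2 ≤ (2 * (q.totient : ℝ)) ^ 2 := by
      nlinarith [sq_nonneg (q.totient : ℝ)]
    exact le_of_pow_le_pow_left₀ (by norm_num) (by positivity) h4
  calc (2 : ℝ) ^ q.primeFactors.card * Real.log (c * q ^ 2)
      ≤ 2 ^ q.primeFactors.card * (ε * s) :=
        mul_le_mul_of_nonneg_left hlog (by positivity)
    _ ≤ (2 ^ 16 * s) * (ε * s) := mul_le_mul_of_nonneg_right hω (by positivity)
    _ = s ^ 2 / 48 := by
        rw [hε]
        field_simp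
    _ ≤ q.totient / 24 := by linarith

end Pool.Agent.L7h97.DQ
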