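import Pool.Agent.L7h33.DQ.Stm

/-!
# Project DQ: the greedy set of exponents (S_BAS)
-/

set_option autoImplicit false

open Polynomial

namespace Pool.Agent.L7h97.DQ

open Pool.Agent.L7h33.DQ Pool.Agent.K7.H54.DP

/-- The packing bound. -/
theorem packing {ι : Type*} [Fintype ι] (p : ι → ℂ) (R ρ : ℝ) (hρ : 0 < ρ) (hR : ρ ≤ R)
    (hp : ∀ i, ‖p i‖ ≤ R) (hsep : ∀ i j, i ≠ j → ρ < ‖p i - p j‖) :
    (Fintype.card ι : ℝ) ≤ (8 * R / ρ) ^ 2 := by
  classical
  set B : ℤ := ⌈2 * R / ρ⌉ with hB
  have hR0 : 0 < R := lt_of_lt_of_le hρ hR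
  have hBpos : 2 ≤ 2 * R / ρ := by
    rw [le_div_iff₀ hρ]
    linarith
  have hB2 : (B : ℝ) < 2 * R / ρ + 1 := Int.ceil_lt_add_one _
  have hB1 : 2 * R / ρ ≤ (B : ℝ) := Int.le_ceil _
  let f : ι → ℤ × ℤ := fun i => (⌊2 * (p i).re / ρ⌋, ⌊2 * (p i).im / ρ⌋)
  have hbd : ∀ t : ℝ, |t| ≤ R → ⌊2 * t / ρ⌋ ∈ Finset.Icc (-B) B := by
    intro t ht
    rw [abs_le] at ht
    rw [Finset.mem_Icc]
    constructor
    · rw [Int.le_floor]
      push_cast
      have : -(2 * R / ρ) ≤ 2 * t / ρ := by
        rw [← neg_div]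
        apply div_le_div_of_nonneg_right _ hρ.le
        linarith [ht.1]
      linarith
    · have h1 : (⌊2 * t / ρ⌋ : ℝ) ≤ 2 * t / ρ := Int.floor_le _
      have h2 : 2 * t / ρ ≤ 2 * R / ρ := by
        apply div_le_div_of_nonneg_right _ hρ.le
        linarith [ht.2]
      have h3 : (⌊2 * t / ρ⌋ : ℝ) ≤ (B : ℝ) := by linarith
      exact_mod_cast h3
  have hmaps : ∀ i ∈ (Finset.univ : Finset ι), f i ∈ Finset.Icc (-B) B ×ˢ Finset.Icc (-B) B := by
    intro i _
    rw [Finset.mem_product]
    exact ⟨hbd _ ((Complex.abs_re_le_norm _).trans (hp i)),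
      hbd _ ((Complex.abs_im_le_norm _).trans (hp i))⟩
  have hinj : Set.InjOn f (Finset.univ : Finset ι) := by
    intro i _ j _ hij
    by_contra hne
    have h := hsep i j hne
    simp only [f, Prod.mk.injEq] at hij
    have key : ∀ a b : ℝ, ⌊2 * a / ρ⌋ = ⌊2 * b / ρ⌋ → |a - b| < ρ / 2 := by
      intro a b hab
      have h1 := Int.abs_sub_lt_one_of_floor_eq_floor hab
      rw [← sub_div, ← mul_sub, abs_div, abs_mul, abs_of_pos hρ, div_lt_one hρ] at h1
      rw [abs_of_pos (by norm_num : (0 : ℝ) < 2)] at h1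
      linarith
    have h1 := key _ _ hij.1
    have h2 := key _ _ hij.2
    have h3 : ‖p i - p j‖ ≤ |(p i - p j).re| + |(p i - p j).im| :=
      Complex.norm_le_abs_re_add_abs_im _
    rw [Complex.sub_re, Complex.sub_im] at h3
    linarith
  have hcard := Finset.card_le_card_of_injOn f hmaps hinj
  rw [Finset.card_univ, Finset.card_product, Int.card_Icc] at hcard
  have h1 : ((B + 1 - -B).toNat : ℝ) ≤ 8 * R / ρ := by
    have h2 : (((B + 1 - -B).toNat : ℤ) : ℝ) = 2 * B + 1 := by
      rw [Int.toNat_of_nonneg]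
      · push_cast
        ring
      · have : (0 : ℝ) < B := by linarith
        have : (0 : ℤ) < B := by exact_mod_cast this
        omega
    have h3 : ((B + 1 - -B).toNat : ℝ) = 2 * B + 1 := by exact_mod_cast h2
    rw [h3]
    have h4 : 8 * R / ρ = 4 * (2 * R / ρ) := by ring
    rw [h4]
    linarith
  calc (Fintype.card ι : ℝ) ≤ ((B + 1 - -B).toNat * (B + 1 - -B).toNat : ℕ) := by
        exact_mod_cast hcard
    _ = ((B + 1 - -B).toNat : ℝ) ^ 2 := by push_cast; ring
    _ ≤ (8 * R / ρ) ^ 2 := pow_le_pow_left₀ (Nat.cast_nonneg _) h1 2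

/-- The set of exponents. -/
theorem greedy (z : ℂ) (ρ : ℝ) (n : ℕ) : ∃ F : Finset ℕ, F ⊆ Finset.range n ∧
    (∀ k ∈ F, ∀ ε : ℕ → ℤ, (∀ j, |ε j| ≤ 1) →
      ρ < ‖z ^ k + ∑ j ∈ F.filter (· < k), (ε j : ℂ) * z ^ j‖) ∧
    ∀ k ∈ Finset.range n \ F, ∃ ε : ℕ → ℤ, (∀ j, |ε j| ≤ 1) ∧
      ‖z ^ k + ∑ j ∈ F.filter (· < k), (ε j : ℂ) * z ^ j‖ ≤ ρ := by
  classical
  induction n with
  | zero => exact ⟨∅, by simp, by simp, by simp⟩
  | succ n ih =>
    obtain ⟨F, hF, h1, h2⟩ := ih
    by_cases h : ∃ ε : ℕ → ℤ, (∀ j, |ε j| ≤ 1) ∧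
        ‖z ^ n + ∑ j ∈ F.filter (· < n), (ε j : ℂ) * z ^ j‖ ≤ ρ
    · refine ⟨F, fun x hx => ?_, h1, fun k hk => ?_⟩
      · have := hF hx
        rw [Finset.mem_range] at this ⊢
        omega
      · rw [Finset.mem_sdiff, Finset.mem_range] at hk
        rcases Nat.lt_or_ge k n with hkn | hkn
        · exact h2 k (by rw [Finset.mem_sdiff, Finset.mem_range]; exact ⟨hkn, hk.2⟩)
        · have : k = n := by omega
          subst this
          exact h
    · push Not at h
      have hfil : ∀ k, k ≤ n → (insert n F).filter (· < k) = F.filter (· < k) := by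
        intro k hk
        rw [Finset.filter_insert, if_neg (by omega)]
      refine ⟨insert n F, fun x hx => ?_, fun k hk ε hε => ?_, fun k hk => ?_⟩
      · rw [Finset.mem_insert] at hx
        rcases hx with rfl | hx
        · rw [Finset.mem_range]; omega
        · have := hF hx
          rw [Finset.mem_range] at this ⊢
          omega
      · rw [Finset.mem_insert] at hk
        rcases hk with rfl | hk
        · rw [hfil k le_rfl]
          exact h ε hε
        · have := Finset.mem_range.1 (hF hk)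
          rw [hfil k (by omega)]
          exact h1 k hk ε hε
      · rw [Finset.mem_sdiff, Finset.mem_range, Finset.mem_insert, not_or] at hk
        have hk' : k < n := by omega
        rw [hfil k hk'.le]
        exact h2 k (by rw [Finset.mem_sdiff, Finset.mem_range]; exact ⟨hk', hk.2.2⟩)

theorem s_BAS : S_BAS := by
  classical
  intro z N ρ hz hN hρ hρ1
  obtain ⟨F, hF, h1, h2⟩ := greedy z ρ N
  refine ⟨F, hF, ?_, ?_⟩
  · have hN1 : (1 : ℝ) ≤ N := by exact_mod_cast hN
    have hcard : F.card ≤ N := by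
      have := Finset.card_le_card hF
      rwa [Finset.card_range] at this
    have hpack := packing (fun A : {A // A ∈ F.powerset} => ∑ j ∈ A.1, z ^ j) (N : ℝ) ρ hρ
      (hρ1.trans hN1) ?_ ?_
    · rw [Fintype.card_coe, Finset.card_powerset] at hpack
      exact_mod_cast hpack
    · rintro ⟨A, hA⟩
      rw [Finset.mem_powerset] at hA
      calc ‖∑ j ∈ A, z ^ j‖ ≤ ∑ j ∈ A, ‖z ^ j‖ := norm_sum_le _ _
        _ = A.card := by
            rw [Finset.sum_congr rfl fun j _ => by rw [norm_pow, hz, one_pow]]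
            simp
        _ ≤ N := by
            exact_mod_cast (Finset.card_le_card hA).trans hcard
    · -- separation
      have key : ∀ A B : Finset ℕ, A ⊆ F → B ⊆ F → A ≠ B →
          (symmDiff A B).Nonempty := by
        intro A B _ _ hAB
        rw [Finset.nonempty_iff_ne_empty]
        intro h
        exact hAB (symmDiff_eq_bot.1 h)
      rintro ⟨A, hA⟩ ⟨B, hB⟩ hAB
      rw [Finset.mem_powerset] at hA hB
      have hAB' : A ≠ B := fun h => hAB (Subtype.ext h)
      have hne := key A B hA hB hAB'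
      set k := (symmDiff A B).max' hne with hk
      have hkm : k ∈ symmDiff A B := Finset.max'_mem _ _
      have hkmax : ∀ j ∈ symmDiff A B, j ≤ k := fun j hj => Finset.le_max' _ _ hj
      -- wlog
      have main : ∀ A B : Finset ℕ, A ⊆ F → B ⊆ F → k ∈ A → k ∉ B →
          (∀ j, k < j → (j ∈ A ↔ j ∈ B)) → ρ < ‖∑ j ∈ A, z ^ j - ∑ j ∈ B, z ^ j‖ := by
        intro A B hA hB hkA hkB hj
        have h3 := h1 k (hA hkA) (fun j => (if j ∈ A then 1 else 0) - (if j ∈ B then 1 else 0))
          (by
            intro j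
            beta_reduce
            split_ifs <;> simp)
        have h4 : ∑ j ∈ A, z ^ j - ∑ j ∈ B, z ^ j =
            ∑ j ∈ F, ((((if j ∈ A then 1 else 0) - (if j ∈ B then 1 else 0) : ℤ)) : ℂ) * z ^ j := by
          have h5 : ∀ S : Finset ℕ, S ⊆ F → ∑ j ∈ S, z ^ j =
              ∑ j ∈ F, (if j ∈ S then (1 : ℂ) else 0) * z ^ j := by
            intro S hS
            rw [← Finset.sum_subset hS (f := fun j => (if j ∈ S then (1 : ℂ) else 0) * z ^ j)]
            · refine Finset.sum_congr rfl fun j hj => ?_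
              rw [if_pos hj, one_mul]
            · intro j _ hj
              rw [if_neg hj, zero_mul]
          rw [h5 A hA, h5 B hB, ← Finset.sum_sub_distrib]
          refine Finset.sum_congr rfl fun j _ => ?_
          push_cast
          ring
        have h6 : ∑ j ∈ F, ((((if j ∈ A then 1 else 0) - (if j ∈ B then 1 else 0) : ℤ)) : ℂ) * z ^ j
            = z ^ k + ∑ j ∈ F.filter (· < k),
              ((((if j ∈ A then 1 else 0) - (if j ∈ B then 1 else 0) : ℤ)) : ℂ) * z ^ j := by
          rw [← Finset.sum_filter_add_sum_filter_not F (· < k), add_comm]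
          congr 1
          rw [Finset.sum_eq_single k]
          · rw [if_pos hkA, if_neg hkB]
            simp
          · intro j hjF hjk
            rw [Finset.mem_filter, not_lt] at hjF
            have : k < j := lt_of_le_of_ne hjF.2 (Ne.symm hjk)
            by_cases hjA : j ∈ A
            · rw [if_pos hjA, if_pos ((hj j this).1 hjA)]
              simp
            · rw [if_neg hjA, if_neg (fun h => hjA ((hj j this).2 h))]
              simp
          · intro h
            exact absurd (Finset.mem_filter.2 ⟨hA hkA, lt_irrefl k⟩) h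
        rw [h4, h6]
        exact h3
      have hiff : ∀ j, k < j → (j ∈ A ↔ j ∈ B) := by
        intro j hj
        by_contra hcon
        have : j ∈ symmDiff A B := by
          rw [Finset.mem_symmDiff]
          tauto
        exact absurd (hkmax j this) (by omega)
      rw [Finset.mem_symmDiff] at hkm
      rcases hkm with ⟨ha, hb⟩ | ⟨hb, ha⟩
      · exact main A B hA hB ha hb hiff
      · have := main B A hB hA hb ha fun j hj => (hiff j hj).symm
        rwa [norm_sub_rev] at this
  · intro k hk
    obtain ⟨ε, hε, hle⟩ := h2 k hk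
    rw [Finset.mem_sdiff, Finset.mem_range] at hk
    set S : ℤ[X] := ∑ j ∈ F.filter (· < k), C (ε j) * X ^ j with hS
    have hcoef : ∀ j, S.coeff j = if j ∈ F.filter (· < k) then ε j else 0 := by
      intro j
      rw [hS, finsetSum_coeff]
      simp only [coeff_C_mul, coeff_X_pow, mul_ite, mul_one, mul_zero]
      rw [Finset.sum_ite_eq]
    have hdeg : S.degree < (k : ℕ) := by
      rw [degree_lt_iff_coeff_zero]
      intro m hm
      rw [hcoef, if_neg]
      intro h
      rw [Finset.mem_filter] at h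
      omega
    have hSk : S.coeff k = 0 := by
      rw [hcoef, if_neg]
      simp
    refine ⟨X ^ k + S, ⟨⟨?_, ?_⟩, ?_⟩, ?_, ?_, ?_⟩
    · have h := natDegree_add_eq_left_of_degree_lt (p := (X ^ k : ℤ[X])) (q := S)
        (by rw [degree_X_pow]; exact hdeg)
      rw [h, natDegree_X_pow]
      exact hk.1
    · intro i
      rw [coeff_add, coeff_X_pow]
      by_cases hik : i = k
      · subst hik
        rw [if_pos rfl, hSk]
        simp
      · rw [if_neg hik, zero_add, hcoef]
        split_ifs
        · exact hε i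
        · simp
    · have : ev (X ^ k + S) z = z ^ k + ∑ j ∈ F.filter (· < k), (ε j : ℂ) * z ^ j := by
        unfold ev
        rw [hS]
        simp [Polynomial.map_sum, eval_finsetSum]
      rw [this]
      exact hle
    · exact monic_X_pow_add hdeg
    · have h := natDegree_add_eq_left_of_degree_lt (p := (X ^ k : ℤ[X])) (q := S)
        (by rw [degree_X_pow]; exact hdeg)
      rw [h, natDegree_X_pow]
    · intro j hj hjF
      rw [coeff_add, coeff_X_pow, if_neg (by omega), zero_add, hcoef, if_neg]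
      intro h
      rw [Finset.mem_filter] at h
      exact hjF h.1

end Pool.Agent.L7h97.DQ
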