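import Pool.Agent.L7h33.DQ.Stm

/-!
# Project DQ: almost every point of the circle is not near the roots of unity (S_DIO)
-/

set_option autoImplicit false

open MeasureTheory

namespace Pool.Agent.L7h97.DQ

open Pool.Agent.L7h33.DQ Pool.Agent.K7.H54.DP

theorem lower_const (f : ℕ → ℝ) (hf : ∀ n, 1 ≤ n → 0 < f n) (n₀ : ℕ)
    (h : ∀ n, n₀ ≤ n → 1 ≤ n → 1 ≤ f n) : ∃ c : ℝ, 0 < c ∧ ∀ n, 1 ≤ n → c ≤ f n := by
  have key : ∀ k : ℕ, ∃ c : ℝ, 0 < c ∧ ∀ n, 1 ≤ n → n < k → c ≤ f n := by
    intro k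
    induction k with
    | zero => exact ⟨1, one_pos, fun n _ h => absurd h (by omega)⟩
    | succ k ih =>
      obtain ⟨c, hc, h1⟩ := ih
      by_cases hk : 1 ≤ k
      · refine ⟨min c (f k), lt_min hc (hf k hk), fun n hn hnk => ?_⟩
        rcases Nat.lt_or_ge n k with h2 | h2
        · exact (min_le_left _ _).trans (h1 n hn h2)
        · have : n = k := by omega
          subst this
          exact min_le_right _ _
      · exact ⟨1, one_pos, fun n hn hnk => absurd hnk (by omega)⟩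
  obtain ⟨c, hc, h1⟩ := key n₀
  refine ⟨min c 1, lt_min hc one_pos, fun n hn => ?_⟩
  rcases Nat.lt_or_ge n n₀ with h2 | h2
  · exact (min_le_left _ _).trans (h1 n hn h2)
  · exact (min_le_right _ _).trans (h n h2 hn)

theorem pt_pow (t : ℝ) (n : ℕ) : 4 * |n * t - round (n * t)| ≤ ‖pt t ^ n - 1‖ := by
  have h1 : pt t ^ n = Complex.exp (Complex.I *
      ((2 * Real.pi * (n * t - round (n * t)) : ℝ) : ℂ)) := by
    unfold pt zz
    rw [← Complex.exp_nat_mul]
    have h2 : (n : ℂ) * ((2 * Real.pi * t : ℝ) * Complex.I) = Complex.I *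
      ((2 * Real.pi * (n * t - round (n * t)) : ℝ) : ℂ) +
        (round ((n : ℝ) * t) : ℂ) * (2 * Real.pi * Complex.I) := by
      push_cast
      ring
    rw [h2, Complex.exp_add, Complex.exp_int_mul_two_pi_mul_I, mul_one]
  rw [h1, Complex.norm_exp_I_mul_ofReal_sub_one]
  have h3 : 2 * Real.pi * (n * t - round (n * t)) / 2 = Real.pi * (n * t - round (n * t)) := by
    ring
  rw [h3]
  have h4 : |Real.pi * (n * t - round (n * t))| ≤ Real.pi / 2 := by
    rw [abs_mul, abs_of_pos Real.pi_pos]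
    have := abs_sub_round ((n : ℝ) * t)
    nlinarith [Real.pi_pos]
  have h5 := Real.mul_abs_le_abs_sin h4
  rw [abs_mul, abs_of_pos Real.pi_pos] at h5
  have h6 : 2 / Real.pi * (Real.pi * |n * t - round (n * t)|) = 2 * |n * t - round (n * t)| := by
    field_simp
  rw [h6] at h5
  rw [norm_mul, Real.norm_eq_abs, Real.norm_eq_abs, abs_of_pos (by norm_num : (0 : ℝ) < 2)]
  linarith

theorem s_DIO : S_DIO := by
  have h1 : ∀ᵐ t ∂(volume.restrict (Set.Ico (0 : ℝ) 1)), t ∉ Set.range ((↑) : ℚ → ℝ) :=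
    ae_restrict_of_ae ((Set.countable_range _).ae_notMem volume)
  have h2 : ∀ᵐ t ∂(volume.restrict (Set.Ico (0 : ℝ) 1)), ∀ p > (2 : ℝ), ¬LiouvilleWith p t :=
    ae_restrict_of_ae ae_not_liouvilleWith
  filter_upwards [h1, h2] with t ht1 ht2
  have h3 := ht2 3 (by norm_num)
  unfold LiouvilleWith at h3
  push Not at h3
  have h4 := h3 1
  rw [Filter.eventually_atTop] at h4
  obtain ⟨n₀, hn₀⟩ := h4
  have hne : ∀ (n : ℕ) (m : ℤ), 1 ≤ n → t ≠ m / n := by
    intro n m _ h
    apply ht1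
    refine ⟨(m : ℚ) / n, ?_⟩
    rw [h]
    push_cast
    rfl
  obtain ⟨c, hc, hcf⟩ := lower_const (fun n => (n : ℝ) ^ 2 * ‖pt t ^ n - 1‖) (fun n hn => by
      have hn' : (0 : ℝ) < n := by exact_mod_cast hn
      have h5 := pt_pow t n
      have h6 : 0 < |n * t - round (n * t)| := by
        rw [abs_pos]
        intro h
        apply hne n (round ((n : ℝ) * t)) hn
        rw [eq_div_iff hn'.ne']
        linarith
      have h7 : 0 < ‖pt t ^ n - 1‖ := by linarith
      positivity) n₀ (fun n hn hn1 => by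
      have hn' : (0 : ℝ) < n := by exact_mod_cast hn1
      have h5 := pt_pow t n
      have h6 := hn₀ n hn (round ((n : ℝ) * t)) (hne n _ hn1)
      have h7 : (3 : ℝ) = ((3 : ℕ) : ℝ) := by norm_num
      rw [h7, Real.rpow_natCast] at h6
      have h8 : |t - round ((n : ℝ) * t) / n| = |n * t - round ((n : ℝ) * t)| / n := by
        rw [eq_div_iff hn'.ne', ← abs_of_pos hn', ← abs_mul, abs_of_pos hn', sub_mul,
          div_mul_cancel₀ _ hn'.ne', mul_comm t]
      rw [h8, div_le_div_iff₀ (by positivity) hn'] at h6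
      have h9 : (n : ℝ) ≤ n * (|n * t - round ((n : ℝ) * t)| * n ^ 2) := by
        calc (n : ℝ) = 1 * n := (one_mul _).symm
          _ ≤ |n * t - round ((n : ℝ) * t)| * n ^ 3 := h6
          _ = _ := by ring
      have h10 : 1 ≤ |n * t - round ((n : ℝ) * t)| * n ^ 2 := by
        by_contra hcon
        push Not at hcon
        have := mul_lt_mul_of_pos_left hcon hn'
        linarith
      have h11 : 0 ≤ (n : ℝ) ^ 2 := by positivity
      nlinarith [mul_le_mul_of_nonneg_left h5 h11])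
  refine ⟨c, hc, fun d hd => ?_⟩
  have hd' : (0 : ℝ) < d := by exact_mod_cast hd
  rw [div_le_iff₀ (by positivity)]
  have := hcf d hd
  linarith

end Pool.Agent.L7h97.DQ
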