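import Pool.Agent.L7h33.DQ.Stm
import Pool.Agent.H338R2.AS.T5

/-!
# Project DQ: Dobrowolski's theorem for irreducible polynomials (S_DOB)
-/

set_option autoImplicit false

open Polynomial

namespace Pool.Agent.L7h97.DQ

open Pool.Agent.L7h33.DQ

theorem assoc_or {F G : ℤ[X]} (h : Associated F G) : F = G ∨ F = -G := by
  obtain ⟨u, hu⟩ := h
  obtain ⟨r, hr, hru⟩ := Polynomial.isUnit_iff.1 u.isUnit
  rcases Int.isUnit_iff.1 hr with h1 | h1
  · left
    rw [← hu, ← hru, h1]
    simp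
  · right
    rw [← hu, ← hru, h1]
    simp

theorem s_DOB : S_DOB := by
  obtain ⟨c, hc, hdob⟩ := Pool.Agent.H338R2.AS.dobr_poly
  refine ⟨c, hc, fun F hF hdeg hX hX' hcyc => ?_⟩
  have hF0 : F ≠ 0 := hF.ne_zero
  have h1 : Real.log (Pool.Agent.K7.H54.DP.MM F) = Pool.Agent.H338R2.AS.lm F :=
    Pool.Agent.H338R2.AS.lm_eq_log hF0
  rw [h1]
  refine hdob F ?_ F.natDegree hdeg le_rfl
  rw [← h1]
  have hMM1 : 1 ≤ Pool.Agent.K7.H54.DP.MM F := by
    unfold Pool.Agent.K7.H54.DP.MM
    exact Polynomial.one_le_mahlerMeasure_of_ne_zero hF0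
  rcases lt_or_eq_of_le hMM1 with h | h
  · exact Real.log_pos h
  · exfalso
    have hXF : ¬ X ∣ F := by
      intro hd
      have h2 := (irreducible_X (R := ℤ)).associated_of_dvd hF hd
      rcases assoc_or h2.symm with h3 | h3
      · exact hX h3
      · exact hX' h3
    obtain ⟨n, hn, hd⟩ := cyclotomic_dvd_of_mahlerMeasure_eq_one h.symm hXF (by
      intro h2
      have h3 : F.natDegree = 0 := natDegree_eq_of_degree_eq_some h2
      omega)
    have h2 := (cyclotomic.irreducible hn).associated_of_dvd hF hd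
    rcases assoc_or h2.symm with h3 | h3
    · exact (hcyc n hn).1 h3
    · exact (hcyc n hn).2 h3

end Pool.Agent.L7h97.DQ
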