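import Pool.Agent.L7h33.DQ.Stm

/-!
# Project DQ: dyadic density points (S_DYA) and separated points (S_PTS)
-/

set_option autoImplicit false

open MeasureTheory

namespace Pool.Agent.L7h97.DQ

open Pool.Agent.L7h33.DQ Pool.Agent.K7.H54.DP

/-- The dyadic interval with the index `a`. -/
def Dy (m : ℕ) (a : ℤ) : Set ℝ := Set.Ico ((a : ℝ) / 2 ^ m) (((a : ℝ) + 1) / 2 ^ m)

theorem J_eq (m : ℕ) (a : ℤ) (t : ℝ) (ht : t ∈ Dy m a) : J m t = Dy m a := by
  have h2 : (0 : ℝ) < 2 ^ m := by positivity
  have h : ⌊(2 : ℝ) ^ m * t⌋ = a := by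
    rw [Int.floor_eq_iff]
    obtain ⟨h3, h4⟩ := ht
    rw [div_le_iff₀ h2] at h3
    rw [lt_div_iff₀ h2] at h4
    constructor <;> linarith
  unfold J Dy
  rw [h]

theorem Dy_split (m : ℕ) (a : ℤ) : Dy m a ⊆ Dy (m + 1) (2 * a) ∪ Dy (m + 1) (2 * a + 1) := by
  intro t ht
  have h2 : (0 : ℝ) < 2 ^ m := by positivity
  have h3 : (0 : ℝ) < 2 ^ (m + 1) := by positivity
  obtain ⟨h4, h5⟩ := ht
  rw [div_le_iff₀ h2] at h4
  rw [lt_div_iff₀ h2] at h5
  unfold Dy
  rcases lt_or_ge (t * 2 ^ (m + 1)) (2 * a + 1) with h | h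
  · left
    refine ⟨?_, ?_⟩
    · rw [div_le_iff₀ h3]
      push_cast
      rw [pow_succ]
      linarith
    · rw [lt_div_iff₀ h3]
      push_cast
      exact h
  · right
    refine ⟨?_, ?_⟩
    · rw [div_le_iff₀ h3]
      push_cast
      exact h
    · rw [lt_div_iff₀ h3]
      push_cast
      rw [pow_succ]
      linarith

theorem Dy_sub (m : ℕ) (a : ℤ) : Dy (m + 1) (2 * a) ⊆ Dy m a := by
  intro t ht
  have h2 : (0 : ℝ) < 2 ^ m := by positivity
  have h3 : (0 : ℝ) < 2 ^ (m + 1) := by positivity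
  obtain ⟨h4, h5⟩ := ht
  rw [div_le_iff₀ h3] at h4
  rw [lt_div_iff₀ h3] at h5
  push_cast at h4 h5
  rw [pow_succ] at h4 h5
  refine ⟨?_, ?_⟩
  · rw [div_le_iff₀ h2]
    linarith
  · rw [lt_div_iff₀ h2]
    linarith

theorem Dy_sub' (m : ℕ) (a : ℤ) : Dy (m + 1) (2 * a + 1) ⊆ Dy m a := by
  intro t ht
  have h2 : (0 : ℝ) < 2 ^ m := by positivity
  have h3 : (0 : ℝ) < 2 ^ (m + 1) := by positivity
  obtain ⟨h4, h5⟩ := ht
  rw [div_le_iff₀ h3] at h4
  rw [lt_div_iff₀ h3] at h5
  push_cast at h4 h5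
  rw [pow_succ] at h4 h5
  refine ⟨?_, ?_⟩
  · rw [div_le_iff₀ h2]
    linarith
  · rw [lt_div_iff₀ h2]
    linarith

theorem s_DYA : S_DYA := by
  intro E M η hE hE1 hη hvol
  have key : ∀ m : ℕ, ∃ a : ℤ, ENNReal.ofReal (η / 2 ^ m) < volume (E ∩ Dy m a) ∧
      ∀ t ∈ Dy m a, ∀ m' ≤ m, ENNReal.ofReal (η / 2 ^ m') ≤ volume (E ∩ J m' t) := by
    intro m
    induction m with
    | zero =>
      have h0 : E ∩ Dy 0 0 = E := by
        rw [Set.inter_eq_left]
        intro t ht
        have := hE1 ht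
        unfold Dy
        simpa using this
      refine ⟨0, ?_, fun t ht m' hm' => ?_⟩
      · rw [h0, pow_zero, div_one]
        exact hvol
      · have : m' = 0 := by omega
        subst this
        rw [J_eq 0 0 t ht, h0, pow_zero, div_one]
        exact hvol.le
    | succ m ih =>
      obtain ⟨a, h1, h2⟩ := ih
      have h3 : ENNReal.ofReal (η / 2 ^ m) < volume (E ∩ Dy (m + 1) (2 * a)) +
          volume (E ∩ Dy (m + 1) (2 * a + 1)) := by
        refine h1.trans_le (le_trans (measure_mono ?_) (measure_union_le _ _))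
        rw [← Set.inter_union_distrib_left]
        exact Set.inter_subset_inter_right _ (Dy_split m a)
      have h4 : ENNReal.ofReal (η / 2 ^ m) = ENNReal.ofReal (η / 2 ^ (m + 1)) +
          ENNReal.ofReal (η / 2 ^ (m + 1)) := by
        rw [← ENNReal.ofReal_add (by positivity) (by positivity)]
        congr 1
        rw [pow_succ]
        ring
      have h5 : ENNReal.ofReal (η / 2 ^ (m + 1)) < volume (E ∩ Dy (m + 1) (2 * a)) ∨
          ENNReal.ofReal (η / 2 ^ (m + 1)) < volume (E ∩ Dy (m + 1) (2 * a + 1)) := by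
        by_contra hcon
        push Not at hcon
        rw [h4] at h3
        exact absurd (add_le_add hcon.1 hcon.2) (not_le.2 h3)
      have fin : ∀ b : ℤ, Dy (m + 1) b ⊆ Dy m a →
          ENNReal.ofReal (η / 2 ^ (m + 1)) < volume (E ∩ Dy (m + 1) b) →
          ∃ a : ℤ, ENNReal.ofReal (η / 2 ^ (m + 1)) < volume (E ∩ Dy (m + 1) a) ∧
          ∀ t ∈ Dy (m + 1) a, ∀ m' ≤ m + 1,
            ENNReal.ofReal (η / 2 ^ m') ≤ volume (E ∩ J m' t) := by
        intro b hb hbv
        refine ⟨b, hbv, fun t ht m' hm' => ?_⟩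
        rcases Nat.lt_or_ge m' (m + 1) with h | h
        · exact h2 t (hb ht) m' (by omega)
        · have : m' = m + 1 := by omega
          subst this
          rw [J_eq (m + 1) b t ht]
          exact hbv.le
      rcases h5 with h5 | h5
      · exact fin _ (Dy_sub m a) h5
      · exact fin _ (Dy_sub' m a) h5
  obtain ⟨a, h1, h2⟩ := key M
  have hne : (E ∩ Dy M a).Nonempty := by
    rw [Set.nonempty_iff_ne_empty]
    intro h
    rw [h, measure_empty] at h1
    exact absurd h1 not_lt_zero
  obtain ⟨t, htE, htD⟩ := hne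
  exact ⟨t, htE, h2 t htD⟩

theorem s_PTS : S_PTS := by
  intro E κ k hκ hk hvol
  have key : ∀ j : ℕ, j ≤ k → ∃ x : Fin j → ℝ, (∀ i, x i ∈ E) ∧
      ∀ i i', i ≠ i' → κ ≤ |x i - x i'| := by
    intro j
    induction j with
    | zero => exact fun _ => ⟨fun i => i.elim0, fun i => i.elim0, fun i => i.elim0⟩
    | succ j ih =>
      intro hj
      obtain ⟨x, h1, h2⟩ := ih (by omega)
      have h3 : ∃ y ∈ E, ∀ i, κ ≤ |x i - y| := by
        by_contra hcon
        push Not at hcon
        have h4 : E ⊆ ⋃ i : Fin j, Set.Ioo (x i - κ) (x i + κ) := by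
          intro y hy
          obtain ⟨i, hi⟩ := hcon y hy
          rw [abs_lt] at hi
          rw [Set.mem_iUnion]
          exact ⟨i, by linarith [hi.2], by linarith [hi.1]⟩
        have h5 : volume E ≤ ∑ i : Fin j, volume (Set.Ioo (x i - κ) (x i + κ)) :=
          (measure_mono h4).trans (measure_iUnion_fintype_le _ _)
        have h6 : ∑ i : Fin j, volume (Set.Ioo (x i - κ) (x i + κ)) =
            ENNReal.ofReal (j * (2 * κ)) := by
          have : ∀ i : Fin j, volume (Set.Ioo (x i - κ) (x i + κ)) = ENNReal.ofReal (2 * κ) := by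
            intro i
            rw [Real.volume_Ioo]
            congr 1
            ring
          rw [Finset.sum_congr rfl fun i _ => this i, Finset.sum_const, Finset.card_univ,
            Fintype.card_fin, nsmul_eq_mul, ENNReal.ofReal_mul (Nat.cast_nonneg _),
            ENNReal.ofReal_natCast]
        rw [h6] at h5
        have h7 := hvol.trans h5
        rw [ENNReal.ofReal_le_ofReal_iff (by positivity)] at h7
        have h8 : (j : ℝ) < k := by exact_mod_cast hj
        have h9 : (0 : ℝ) ≤ j := Nat.cast_nonneg _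
        nlinarith [mul_pos (by linarith : (0 : ℝ) < k) hκ]
      obtain ⟨y, hy, hyx⟩ := h3
      refine ⟨Fin.cons y x, fun i => ?_, fun i i' => ?_⟩
      · refine Fin.cases ?_ (fun i => ?_) i
        · exact hy
        · exact h1 i
      · refine Fin.cases ?_ (fun i => ?_) i
        · refine Fin.cases ?_ (fun i' => ?_) i'
          · intro h
            exact absurd rfl h
          · intro _
            rw [Fin.cons_zero, Fin.cons_succ, abs_sub_comm]
            exact hyx i'
        · refine Fin.cases ?_ (fun i' => ?_) i'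
          · intro _
            rw [Fin.cons_zero, Fin.cons_succ]
            exact hyx i
          · intro h
            rw [Fin.cons_succ, Fin.cons_succ]
            exact h2 i i' fun h' => h (by rw [h'])
  exact key k le_rfl

end Pool.Agent.L7h97.DQ
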