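import Pool.Agent.L7h33.DQ.Stm

/-!
# Project DQ: interpolation (S_INT)
-/

set_option autoImplicit false

open Polynomial

namespace Pool.Agent.L7h97.DQ

open Pool.Agent.L7h33.DQ Pool.Agent.K7.H54.DP

/-- The sum of the moduli of the coefficients. -/
noncomputable def SS (N : ℕ) (P : ℂ[X]) : ℝ := ∑ i ∈ Finset.range N, ‖P.coeff i‖

theorem SS_div (N : ℕ) (P : ℂ[X]) (w : ℂ) (hw : ‖w‖ = 1) (hP : P.natDegree < N) :
    (P /ₘ (X - C w)).natDegree < N ∧ SS N (P /ₘ (X - C w)) ≤ N * SS N P := by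
  constructor
  · rw [natDegree_divByMonic _ (monic_X_sub_C w)]
    exact lt_of_le_of_lt (Nat.sub_le _ _) hP
  · have h1 : ∀ n, ‖(P /ₘ (X - C w)).coeff n‖ ≤ SS N P := by
      intro n
      rw [coeff_divByMonic_X_sub_C]
      refine (norm_sum_le _ _).trans ?_
      unfold SS
      have h2 : ∀ i ∈ Finset.Icc (n + 1) P.natDegree, ‖w ^ (i - (n + 1)) * P.coeff i‖ =
          ‖P.coeff i‖ := by
        intro i _
        rw [norm_mul, norm_pow, hw, one_pow, one_mul]
      rw [Finset.sum_congr rfl h2]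
      refine Finset.sum_le_sum_of_subset_of_nonneg ?_ fun _ _ _ => norm_nonneg _
      intro i hi
      rw [Finset.mem_Icc] at hi
      rw [Finset.mem_range]
      omega
    calc SS N (P /ₘ (X - C w)) ≤ ∑ _i ∈ Finset.range N, SS N P :=
          Finset.sum_le_sum fun i _ => h1 i
      _ = N * SS N P := by
          rw [Finset.sum_const, Finset.card_range, nsmul_eq_mul]

theorem SS_nonneg (N : ℕ) (P : ℂ[X]) : 0 ≤ SS N P := Finset.sum_nonneg fun _ _ => norm_nonneg _

theorem SS_eval (N : ℕ) (P : ℂ[X]) (hN : 1 ≤ N) (hP : P.natDegree < N) (x : ℂ)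
    (hx : ‖x‖ ≤ 1 + 1 / N) : ‖P.eval x‖ ≤ 4 * SS N P := by
  have hN' : (0 : ℝ) < N := by exact_mod_cast hN
  have h0 : (1 + 1 / (N : ℝ)) ^ N ≤ 4 := by
    have h1 : 1 + 1 / (N : ℝ) ≤ Real.exp (1 / N) := by
      have := Real.add_one_le_exp (1 / (N : ℝ))
      linarith
    have h2 : (1 + 1 / (N : ℝ)) ^ N ≤ Real.exp (1 / N) ^ N :=
      pow_le_pow_left₀ (by positivity) h1 N
    rw [← Real.exp_nat_mul, mul_one_div_cancel hN'.ne'] at h2
    have := Real.exp_one_lt_d9
    linarith
  rw [eval_eq_sum_range' hP]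
  refine (norm_sum_le _ _).trans ?_
  unfold SS
  rw [Finset.mul_sum]
  refine Finset.sum_le_sum fun i hi => ?_
  rw [Finset.mem_range] at hi
  rw [norm_mul, norm_pow, mul_comm]
  refine mul_le_mul_of_nonneg_right ?_ (norm_nonneg _)
  have h1 : (1 : ℝ) ≤ 1 + 1 / N := by
    have : 0 ≤ 1 / (N : ℝ) := by positivity
    linarith
  calc ‖x‖ ^ i ≤ (1 + 1 / (N : ℝ)) ^ i := pow_le_pow_left₀ (norm_nonneg _) hx i
    _ ≤ (1 + 1 / (N : ℝ)) ^ N := pow_le_pow_right₀ h1 hi.le
    _ ≤ 4 := h0

theorem newton (N : ℕ) (P : ℂ[X]) (hP : P.natDegree < N) (k : ℕ) (w : Fin k → ℂ)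
    (hw : ∀ i, ‖w i‖ = 1) : ∃ A Q : ℂ[X], P = A + Q * ∏ i, (X - C (w i)) ∧ A.degree < (k : ℕ) ∧
      Q.natDegree < N ∧ SS N Q ≤ N ^ k * SS N P := by
  induction k with
  | zero =>
    refine ⟨0, P, ?_, ?_, hP, ?_⟩
    · simp
    · simp
    · simp
  | succ k ih =>
    obtain ⟨A, Q, h1, h2, h3, h4⟩ := ih (fun i => w i.castSucc) fun i => hw _
    obtain ⟨h5, h6⟩ := SS_div N Q (w (Fin.last k)) (hw _) h3
    refine ⟨A + C (Q.eval (w (Fin.last k))) * ∏ i : Fin k, (X - C (w i.castSucc)),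
      Q /ₘ (X - C (w (Fin.last k))), ?_, ?_, h5, ?_⟩
    · rw [Fin.prod_univ_castSucc]
      have h7 := modByMonic_add_div Q (X - C (w (Fin.last k)))
      rw [modByMonic_X_sub_C_eq_C_eval] at h7
      conv_lhs => rw [h1, ← h7]
      have h8 : eval (w (Fin.last k)) (C (eval (w (Fin.last k)) Q) +
        (X - C (w (Fin.last k))) * (Q /ₘ (X - C (w (Fin.last k))))) =
          eval (w (Fin.last k)) Q := by simp
      ring
    · refine (degree_add_le _ _).trans_lt (max_lt ?_ ?_)
      · exact h2.trans (by exact_mod_cast Nat.lt_succ_self k)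
      · refine ((degree_mul_le _ _).trans (add_le_add degree_C_le le_rfl)).trans_lt ?_
        rw [zero_add, degree_prod_of_monic _ _ fun i _ => monic_X_sub_C _]
        simp only [degree_X_sub_C, Finset.sum_const, Finset.card_univ, Fintype.card_fin]
        rw [nsmul_one]
        exact_mod_cast Nat.lt_succ_self k
    · calc SS N (Q /ₘ (X - C (w (Fin.last k)))) ≤ N * SS N Q := h6
        _ ≤ N * (N ^ k * SS N P) := mul_le_mul_of_nonneg_left h4 (Nat.cast_nonneg _)
        _ = N ^ (k + 1) * SS N P := by ring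

theorem s_INT : S_INT := by
  classical
  intro D N k z w R δ ε hD hN hk hz hw hδ hε hsep hval x hx hR
  have hN' : (0 : ℝ) < N := by exact_mod_cast hN
  set P : ℂ[X] := D.map (Int.castRingHom ℂ) with hPdef
  have hPd : P.natDegree < N := lt_of_le_of_lt natDegree_map_le hD.1
  have hSS : SS N P ≤ N := by
    unfold SS
    calc ∑ i ∈ Finset.range N, ‖P.coeff i‖ ≤ ∑ _i ∈ Finset.range N, (1 : ℝ) := by
          refine Finset.sum_le_sum fun i _ => ?_
          rw [hPdef, coeff_map, eq_intCast, Complex.norm_intCast]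
          exact_mod_cast hD.2 i
      _ = N := by simp
  obtain ⟨A, Q, h1, h2, h3, h4⟩ := newton N P hPd k w hw
  have hR0 : 0 ≤ R := (norm_nonneg _).trans (hR ⟨0, hk⟩)
  have hAw : ∀ i, A.eval (w i) = P.eval (w i) := by
    intro i
    rw [h1]
    simp only [eval_add, eval_mul, eval_prod, eval_sub, eval_X, eval_C]
    rw [Finset.prod_eq_zero (Finset.mem_univ i) (sub_self _), mul_zero, add_zero]
  have hinj : Set.InjOn w (Finset.univ : Finset (Fin k)) := by
    intro i _ j _ hij
    by_contra hne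
    have := hsep i j hne
    rw [hij, sub_self, norm_zero] at this
    linarith
  have hA : A = Lagrange.interpolate Finset.univ w (fun i => P.eval (w i)) :=
    Lagrange.eq_interpolate_of_eval_eq _ hinj
      (by rw [Finset.card_univ, Fintype.card_fin]; exact h2) fun i _ => hAw i
  have hAx : ‖A.eval x‖ ≤ k * (R / δ) ^ (k - 1) * ε := by
    rw [hA, Lagrange.interpolate_apply, eval_finsetSum]
    refine (norm_sum_le _ _).trans ?_
    have hterm : ∀ i ∈ (Finset.univ : Finset (Fin k)),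
        ‖eval x (C (P.eval (w i)) * Lagrange.basis Finset.univ w i)‖ ≤ (R / δ) ^ (k - 1) * ε := by
      intro i _
      rw [eval_mul, eval_C, norm_mul, mul_comm]
      refine mul_le_mul ?_ (hval i) (norm_nonneg _) (by positivity)
      unfold Lagrange.basis
      rw [eval_prod, norm_prod]
      have hcard : (Finset.univ.erase i).card = k - 1 := by
        rw [Finset.card_erase_of_mem (Finset.mem_univ i), Finset.card_univ, Fintype.card_fin]
      rw [← hcard, ← Finset.prod_const]
      refine Finset.prod_le_prod (fun _ _ => norm_nonneg _) fun j hj => ?_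
      unfold Lagrange.basisDivisor
      rw [eval_mul, eval_C, eval_sub, eval_X, eval_C, norm_mul, norm_inv, inv_mul_eq_div]
      have hne : i ≠ j := (Finset.ne_of_mem_erase hj).symm
      exact div_le_div₀ hR0 (hR j) hδ (hsep i j hne)
    refine (Finset.sum_le_sum hterm).trans ?_
    rw [Finset.sum_const, Finset.card_univ, Fintype.card_fin, nsmul_eq_mul, mul_assoc]
  have hxn : ‖x‖ ≤ 1 + 1 / N := by
    calc ‖x‖ = ‖(x - z) + z‖ := by rw [sub_add_cancel]
      _ ≤ ‖x - z‖ + ‖z‖ := norm_add_le _ _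
      _ ≤ 1 / N + 1 := by rw [hz]; linarith
      _ = 1 + 1 / N := add_comm _ _
  have hQx := SS_eval N Q hN h3 x hxn
  have hprod : ‖eval x (∏ i, (X - C (w i)))‖ ≤ R ^ k := by
    rw [eval_prod, norm_prod]
    calc ∏ i, ‖eval x (X - C (w i))‖ ≤ ∏ _i : Fin k, R := by
          refine Finset.prod_le_prod (fun _ _ => norm_nonneg _) fun i _ => ?_
          rw [eval_sub, eval_X, eval_C]
          exact hR i
      _ = R ^ k := by simp
  have hev : ev D x = A.eval x + Q.eval x * eval x (∏ i, (X - C (w i))) := by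
    show P.eval x = _
    conv_lhs => rw [h1]
    rw [eval_add, eval_mul]
  rw [hev]
  refine (norm_add_le _ _).trans (add_le_add hAx ?_)
  rw [norm_mul]
  have h5 : SS N Q ≤ (N : ℝ) ^ (k + 1) := by
    calc SS N Q ≤ N ^ k * SS N P := h4
      _ ≤ N ^ k * N := mul_le_mul_of_nonneg_left hSS (by positivity)
      _ = (N : ℝ) ^ (k + 1) := by ring
  refine mul_le_mul (hQx.trans ?_) hprod (norm_nonneg _) (by positivity)
  linarith

end Pool.Agent.L7h97.DQ
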